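import Pool.Agent.Y869.BI.WC
import Pool.Agent.W869.AU.Defs

/-!
# The notions of MP_9708fd_lc
-/

set_option autoImplicit false
set_option linter.unusedSectionVars false
set_option linter.unusedVariables false
set_option linter.style.haveILetI false

universe u

namespace Pool.Agent.Y869.BI

open Set
open Cardinal hiding univ
open Pool.Agent.W869

variable {μ : Cardinal.{u}} {hμ : ℵ₀ ≤ μ} {Λ : Type u}

theorem cls_le {A B : Set Λ} : W869.AU.cls hμ A ≤ W869.AU.cls hμ B ↔ AV.Al μ A B := Iff.rfl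

theorem cls_eq {A B : Set Λ} :
    W869.AU.cls hμ A = W869.AU.cls hμ B ↔ AV.Al μ A B ∧ AV.Al μ B A := by
  rw [le_antisymm_iff, cls_le, cls_le]

theorem exists_autU (φ : W869.AU.Quo μ hμ Λ ≃o W869.AU.Quo μ hμ Λ) :
    ∃ ρ : AV.Aut μ Λ, ∀ A, φ (W869.AU.cls hμ A) = W869.AU.cls hμ (ρ.F A) := by
  have hex : ∀ q : W869.AU.Quo μ hμ Λ, ∃ A : Set Λ, W869.AU.cls hμ A = q := fun q =>
    ⟨ofAntisymmetrization (α := W869.AU.Pow μ hμ Λ) (· ≤ ·) q,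
      toAntisymmetrization_ofAntisymmetrization _ q⟩
  choose rep hrep using hex
  refine ⟨⟨fun A => rep (φ (W869.AU.cls hμ A)), fun B => rep (φ.symm (W869.AU.cls hμ B)),
    fun A B => ?_, fun B => ?_, fun B => ?_⟩, fun A => (hrep _).symm⟩
  · rw [← cls_le (hμ := hμ), ← cls_le (hμ := hμ), hrep, hrep, φ.le_iff_le]
  · rw [← cls_le (hμ := hμ), hrep, hrep, φ.apply_symm_apply]
  · rw [← cls_le (hμ := hμ), hrep, hrep, φ.apply_symm_apply]

theorem trOn_iff {φ : W869.AU.Quo μ hμ Λ ≃o W869.AU.Quo μ hμ Λ} {ρ : AV.Aut μ Λ}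
    (hρ : ∀ A, φ (W869.AU.cls hμ A) = W869.AU.cls hμ (ρ.F A)) (X : Set Λ) :
    W869.AU.IsTrivialOn φ X ↔ AV.Tr ρ X := by
  classical
  constructor
  · rintro ⟨e, he⟩
    refine ⟨fun x => if h : x ∈ X then e ⟨x, h⟩ else x, fun A hA => ?_⟩
    have h1 := he {x : X | x.1 ∈ A}
    have h2 : ((fun x : X => x.1) '' {x : X | x.1 ∈ A} : Set Λ) = A := by
      ext y
      constructor
      · rintro ⟨x, hx, rfl⟩
        exact hx
      · intro hy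
        exact ⟨⟨y, hA hy⟩, hy, rfl⟩
    have h3 : ((fun x => if h : x ∈ X then e ⟨x, h⟩ else x) '' A : Set Λ) =
        e '' {x : X | x.1 ∈ A} := by
      ext y
      constructor
      · rintro ⟨x, hx, rfl⟩
        refine ⟨⟨x, hA hx⟩, hx, ?_⟩
        show e ⟨x, hA hx⟩ = if h : x ∈ X then e ⟨x, h⟩ else x
        rw [dif_pos (hA hx)]
      · rintro ⟨x, hx, rfl⟩
        refine ⟨x.1, hx, ?_⟩
        show (if h : x.1 ∈ X then e ⟨x.1, h⟩ else x.1) = e x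
        rw [dif_pos x.2]
    rw [h3]
    rw [h2, hρ, cls_eq] at h1
    exact h1
  · rintro ⟨e, he⟩
    refine ⟨fun x => e x.1, fun A => ?_⟩
    have h1 : ((fun x : X => e x.1) '' A : Set Λ) = e '' ((fun x : X => x.1) '' A) := by
      rw [Set.image_image]
    rw [hρ, h1, cls_eq]
    refine he _ ?_
    rintro _ ⟨x, -, rfl⟩
    exact x.2

theorem tr_iff {φ : W869.AU.Quo μ hμ Λ ≃o W869.AU.Quo μ hμ Λ} {ρ : AV.Aut μ Λ}
    (hρ : ∀ A, φ (W869.AU.cls hμ A) = W869.AU.cls hμ (ρ.F A)) :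
    W869.AU.IsTrivial φ ↔ AV.Tr ρ Set.univ := by
  constructor
  · rintro ⟨e, he⟩
    refine ⟨e, fun A _ => ?_⟩
    have h1 := he A
    rw [hρ, cls_eq] at h1
    exact h1
  · rintro ⟨e, he⟩
    refine ⟨e, fun A => ?_⟩
    rw [hρ, cls_eq]
    exact he A (Set.subset_univ A)

/-- The least cardinality of a bad set. -/
theorem least_bad (φ : W869.AU.Quo μ hμ Λ ≃o W869.AU.Quo μ hμ Λ)
    (h : ∀ X : Set Λ, #X = μ → W869.AU.IsTrivialOn φ X) (hnt : ¬ W869.AU.IsTrivial φ) :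
    ∃ θ : Cardinal.{u}, μ < θ ∧ θ ≤ #Λ ∧ θ.IsInaccessible ∧ ¬ HasBranches θ ∧
      (∀ X : Set Λ, #X < θ → W869.AU.IsTrivialOn φ X) ∧
      ∃ X : Set Λ, #X = θ ∧ ¬ W869.AU.IsTrivialOn φ X := by
  haveI : Fact (ℵ₀ ≤ μ) := ⟨hμ⟩
  obtain ⟨ρ, hρ⟩ := exists_autU φ
  have hloc : AV.Loc ρ := fun X hX => (trOn_iff hρ X).1 (h X hX)
  have hnt' : ¬ AV.Tr ρ Set.univ := fun h1 => hnt ((tr_iff hρ).2 h1)
  let S : Set Cardinal.{u} := {c | ∃ Z : Set Λ, #Z = c ∧ ¬ AV.Tr ρ Z}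
  have hne : S.Nonempty := ⟨_, Set.univ, rfl, hnt'⟩
  have hwf := wellFounded_lt (α := Cardinal.{u})
  obtain ⟨Z, hZ, hZ'⟩ : hwf.min S hne ∈ S := hwf.min_mem S hne
  have hmin : ∀ Z' : Set Λ, #Z' < #Z → AV.Tr ρ Z' := by
    intro Z' h1
    by_contra h2
    rw [hZ] at h1
    have h3 : #Z' ∈ S := ⟨Z', rfl, h2⟩
    exact hwf.not_lt_min S h3 h1
  obtain ⟨h1, h2, h3⟩ := least_nontrivial hμ hloc hZ' hmin
  exact ⟨#Z, h1, Cardinal.mk_set_le Z, h2, h3, fun X hX => (trOn_iff hρ X).2 (hmin X hX),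
    Z, rfl, fun h4 => hZ' ((trOn_iff hρ Z).1 h4)⟩

end Pool.Agent.Y869.BI
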