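import Pool.Agent.W869.AV.Wrap

/-!
# Automorphisms of `P(Λ)/I_κ` which are trivial on the sets of size `κ`, beyond `2 ^ κ`

The theorem of the starting files (`W869.AV`) is about `|Λ| ≤ 2 ^ κ`. We extend it to all `Λ` with
no strongly inaccessible cardinal in `(κ, |Λ|]`.
-/

set_option autoImplicit false
set_option linter.unusedSectionVars false
set_option linter.unusedVariables false
set_option linter.style.haveILetI false

universe u

namespace Pool.Agent.Y869.BI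

open Set Pool.Agent.W869.AV
open Cardinal hiding univ

variable {κ μ : Cardinal.{u}} {Λ : Type u} [Fact (ℵ₀ ≤ κ)]

/-- The starting theorem for subsets of size at most `2 ^ κ` of an arbitrary set. -/
theorem tr_rel (hκ : ℵ₀ ≤ κ) {π : Aut κ Λ} (hπ : Loc π) {X : Set Λ} (hX : #X ≤ 2 ^ κ) :
    Tr π X := by
  classical
  obtain ⟨T, hT⟩ : ∃ T : Λ → Set κ.ord.ToType, InjOn T X := by
    have h1 : #X ≤ #(Set κ.ord.ToType) := by
      rw [Cardinal.mk_set, Cardinal.mk_ord_toType]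
      exact hX
    obtain ⟨t⟩ := h1
    refine ⟨fun x => if h : x ∈ X then t ⟨x, h⟩ else ∅, fun x hx y hy hxy => ?_⟩
    simp only [dif_pos hx, dif_pos hy] at hxy
    exact congrArg Subtype.val (t.injective hxy)
  haveI : Nonempty κ.ord.ToType := by
    rw [← Cardinal.mk_ne_zero_iff, Cardinal.mk_ord_toType]
    exact (Cardinal.aleph0_pos.trans_le hκ).ne'
  have hM : #κ.ord.ToType ≤ κ := (Cardinal.mk_ord_toType κ).le
  obtain ⟨S, E, hS, hd, hinj, hmax⟩ := exists_max hκ π fun x y => Sc π T y ≠ T x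
  have hSc : #S ≤ κ := few_members hκ hπ hM T hS hd hinj
  have hSU : #(⋃₀ S : Set Λ) ≤ κ := by
    refine (card_sUnion fun Y hY => (hS Y hY).1.le).trans ?_
    exact (mul_le_mul_left hSc κ).trans (Cardinal.mul_eq_self hκ).le
  have hN : #(⋃₀ S ∪ π.G (E '' ⋃₀ S) : Set Λ) ≤ κ :=
    card_union hκ hSU (card_G hκ hπ (Cardinal.mk_image_le.trans hSU))
  refine Tr.of_remove hκ (N := ⋃₀ S ∪ π.G (E '' ⋃₀ S)) ?_ (hπ.le hκ hN)
  refine final_thread hκ T hπ (hT.mono sdiff_subset) ?_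
  rintro Y hY ⟨hYc, e, he, hP⟩
  have h1 := he.side' hκ (E '' ⋃₀ S)
  let Y₁ : Set Λ := {x ∈ Y | e x ∉ E '' ⋃₀ S}
  have h2 : ¬ Sm κ Y₁ := by
    intro h
    refine not_small_of hYc (sm_mono ?_ (sm_union hκ h h1))
    intro x hx
    by_cases h3 : e x ∈ E '' ⋃₀ S
    · exact Or.inr ⟨hx, fun h => (hY hx).2 (Or.inr (h.2 h3))⟩
    · exact Or.inl ⟨hx, h3⟩
  have h3 : ¬ Sm κ (e '' Y₁) := fun h => h2 (he.small hκ (fun x hx => hx.1) h)
  obtain ⟨C, hC, hCc⟩ := exists_sub h3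
  choose! s hs hs' using fun y (hy : y ∈ C) => hC hy
  have h4 : InjOn s C := by
    intro y hy z hz heq
    rw [← hs' y hy, ← hs' z hz, heq]
  have h5 : #(s '' C) = κ := by rw [Cardinal.mk_image_eq_of_injOn _ _ h4, hCc]
  have h6 : ∀ x ∈ s '' C, x ∈ Y₁ := by
    rintro _ ⟨y, hy, rfl⟩
    exact hs y hy
  refine hmax (s '' C) e h5 (he.mono fun x hx => (h6 x hx).1) ?_ (fun x hx => hP x (h6 x hx).1)
    (fun x hx h => (hY (h6 x hx).1).2 (Or.inl h)) fun x hx => (h6 x hx).2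
  rintro _ ⟨y, hy, rfl⟩ _ ⟨z, hz, rfl⟩ heq
  rw [hs' y hy, hs' z hz] at heq
  rw [heq]

theorem al_up {A B : Set Λ} (h : Al κ A B) (hκμ : κ < μ) : Al μ A B := lt_trans h hκμ

theorem sm_up {A : Set Λ} (h : Sm κ A) (hκμ : κ < μ) : Sm μ A := lt_trans h hκμ

/-- Sets on which an inducing function has a small image (`< μ`) are small (`< μ`). -/
theorem card_lt_of_image (hκ : ℵ₀ ≤ κ) (hκμ : κ < μ) {π : Aut κ Λ} {e : Λ → Λ} {X : Set Λ}
    (he : Good π e X) (hX : #(e '' X) < μ) : #X < μ := by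
  have hμ : ℵ₀ ≤ μ := hκ.trans hκμ.le
  have h1 : X ⊆ ⋃ y : (e '' X : Set Λ), {x ∈ X | e x = y.1} := by
    intro x hx
    exact mem_iUnion.2 ⟨⟨e x, x, hx, rfl⟩, hx, rfl⟩
  have h2 : ∀ y : (e '' X : Set Λ), #({x ∈ X | e x = y.1} : Set Λ) ≤ κ := by
    intro y
    have h3 : Sm κ {x ∈ X | e x = y.1} := by
      refine he.small hκ (fun x hx => hx.1) (sm_mono (t := {y.1}) ?_ (sm_singleton hκ _))
      rintro _ ⟨x, hx, rfl⟩
      exact hx.2
    exact h3.le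
  calc #X ≤ #(⋃ y : (e '' X : Set Λ), {x ∈ X | e x = y.1} : Set Λ) :=
        Cardinal.mk_le_mk_of_subset h1
    _ ≤ #(e '' X : Set Λ) * κ := (Cardinal.mk_iUnion_le _).trans
        (mul_le_mul' le_rfl (ciSup_le' h2))
    _ < μ := Cardinal.mul_lt_of_lt hμ hX hκμ

/-- An automorphism modulo the sets of size `< κ`, trivial on the sets of size `μ > κ`, is an
automorphism modulo the sets of size `< μ`. -/
def lift (hκ : ℵ₀ ≤ κ) (hκμ : κ < μ) (π : Aut κ Λ) (h : ∀ Z : Set Λ, #Z ≤ μ → Tr π Z) :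
    Aut μ Λ where
  F := π.F
  G := π.G
  le_iff A B := by
    have hμ : ℵ₀ ≤ μ := hκ.trans hκμ.le
    haveI : Fact (ℵ₀ ≤ μ) := ⟨hμ⟩
    constructor
    · intro hAB
      have h1 : Al κ (π.F A) (π.F (A \ B) ∪ π.F B) := by
        refine ((π.le_iff _ _).1 (Al.of_subset ?_)).trans hκ (π.union_le hκ (A \ B) B)
        intro x hx
        by_cases hB : x ∈ B
        · exact Or.inr hB
        · exact Or.inl ⟨hx, hB⟩
      obtain ⟨e, he⟩ := h (A \ B) (le_of_lt hAB)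
      have h2 := (he _ subset_rfl).1
      have h3 : Sm μ (e '' (A \ B)) := sm_image e hAB
      refine sm_mono ?_ (sm_union hμ (al_up h1 hκμ) (sm_union hμ (al_up h2 hκμ) h3))
      rintro x ⟨hx, hx'⟩
      by_cases h4 : x ∈ π.F (A \ B)
      · by_cases h5 : x ∈ e '' (A \ B)
        · exact Or.inr (Or.inr h5)
        · exact Or.inr (Or.inl ⟨h4, h5⟩)
      · exact Or.inl ⟨hx, fun h => h.elim h4 hx'⟩
    · intro hAB
      by_contra hcon
      obtain ⟨D, hD, hDc⟩ := exists_sub hcon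
      obtain ⟨e, he⟩ := h D hDc.le
      have h1 := (he _ subset_rfl).2
      have h2 : Al κ (π.F D) (π.F A) := (π.le_iff _ _).1 (Al.of_subset fun x hx => (hD hx).1)
      have h3 : Sm κ (π.F D ∩ π.F B : Set Λ) := by
        refine π.disj hκ ?_
        have : (D ∩ B : Set Λ) = ∅ := by
          ext x
          simp only [mem_inter_iff, mem_empty_iff_false, iff_false, not_and]
          exact fun hx => (hD hx).2
        rw [this]
        exact sm_empty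
      have h4 : #(e '' D) < μ := by
        refine sm_mono (t := (e '' D \ π.F D) ∪ ((π.F D \ π.F A) ∪
          ((π.F D ∩ π.F B) ∪ (π.F A \ π.F B)))) ?_ (sm_union hμ (al_up h1 hκμ)
          (sm_union hμ (al_up h2 hκμ) (sm_union hμ (sm_up h3 hκμ) hAB)))
        intro x hx
        by_cases h5 : x ∈ π.F D
        · by_cases h6 : x ∈ π.F A
          · by_cases h7 : x ∈ π.F B
            · exact Or.inr (Or.inr (Or.inl ⟨h5, h7⟩))
            · exact Or.inr (Or.inr (Or.inr ⟨h6, h7⟩))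
          · exact Or.inr (Or.inl ⟨h5, h6⟩)
        · exact Or.inl ⟨hx, h5⟩
      exact absurd hDc (card_lt_of_image hκ hκμ he h4).ne
  FG B := al_up (π.FG B) hκμ
  FG' B := al_up (π.FG' B) hκμ

theorem good_lift (hκ : ℵ₀ ≤ κ) (hκμ : κ < μ) {π : Aut κ Λ}
    (h : ∀ Z : Set Λ, #Z ≤ μ → Tr π Z) {e : Λ → Λ} {X : Set Λ} (he : Good π e X) :
    Good (lift hκ hκμ π h) e X := by
  intro A hA
  exact ⟨al_up (he A hA).1 hκμ, al_up (he A hA).2 hκμ⟩

/-- Correction of a function which induces the automorphism up to few errors. -/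
theorem glue_errors (hκ : ℵ₀ ≤ κ) {π : Aut κ Λ} (hπ : Loc π) {X : Set Λ} {ν : Cardinal.{u}}
    (hκν : κ ≤ ν) (h : ∀ Z : Set Λ, #Z ≤ ν → Tr π Z) (e : Λ → Λ)
    (hun : ∀ Z ⊆ X, #Z ≤ ν → ∀ e' : Λ → Λ, Good π e' Z → #({x ∈ Z | e' x ≠ e x} : Set Λ) < ν) :
    Tr π X := by
  classical
  have hν : ℵ₀ ≤ ν := hκ.trans hκν
  obtain ⟨S, hS, hd, hmax⟩ := exists_family
    (fun Y : Set Λ => #Y = κ ∧ ∃ e' : Λ → Λ, Good π e' Y ∧ ∀ x ∈ Y, e' x ≠ e x) X (by
    rintro Y ⟨hY, -⟩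
    by_contra hcon
    rw [not_nonempty_iff_eq_empty] at hcon
    apply not_small_of hY
    rw [hcon]
    exact sm_empty)
  have hcard : ∀ S' : Set (Set Λ), S' ⊆ S → #S' ≤ ν → #(⋃₀ S' : Set Λ) ≤ ν := by
    intro S' hS' hc
    refine (card_sUnion fun Y hY => (hS Y (hS' hY)).2.1.le).trans ?_
    exact (mul_le_mul' hc hκν).trans (Cardinal.mul_eq_self hν).le
  have hSν : #S < ν := by
    by_contra hcon
    obtain ⟨S', hS', hSc⟩ := Cardinal.le_mk_iff_exists_subset.1 (not_lt.1 hcon)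
    have hZ := hcard S' hS' hSc.le
    obtain ⟨e₁, he₁⟩ := h _ hZ
    have h1 := hun (⋃₀ S') (sUnion_subset fun Y hY => (hS Y (hS' hY)).1) hZ e₁ he₁
    have h2 : #S' ≤ #({x ∈ ⋃₀ S' | e₁ x ≠ e x} : Set Λ) := by
      refine card_family (fun Y hY Y' hY' => hd Y (hS' hY) Y' (hS' hY')) fun Y hY => ?_
      obtain ⟨hYc, e', he', hne⟩ := (hS Y (hS' hY)).2
      by_contra hcon'
      apply not_small_of hYc
      refine sm_mono ?_ ((he₁.mono (subset_sUnion_of_mem hY)).uniq hκ he')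
      intro x hx
      refine ⟨hx, ?_⟩
      have h3 : e₁ x = e x := by
        by_contra h4
        exact hcon' ⟨x, hx, ⟨Y, hY, hx⟩, h4⟩
      rw [h3]
      exact (hne x hx).symm
    rw [hSc] at h2
    exact lt_irrefl _ (h2.trans_lt h1)
  refine Tr.of_remove hκ (N := ⋃₀ S) ?_ (h _ (hcard S subset_rfl hSν.le))
  refine ⟨e, good_of_local hκ fun Y hY hYc => ?_⟩
  obtain ⟨e', he'⟩ := hπ Y hYc
  refine he'.congr hκ ?_
  by_contra hcon
  obtain ⟨D, hD, hDc⟩ := exists_sub hcon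
  exact hmax D ⟨hDc, e', he'.mono fun x hx => (hD hx).1, fun x hx => (hD hx).2⟩
    fun x hx => hY (hD hx).1

/-- From `μ` to `2 ^ μ`. -/
theorem step_pow (hκ : ℵ₀ ≤ κ) {π : Aut κ Λ} (hπ : Loc π) (hκμ : κ ≤ μ)
    (h : ∀ Z : Set Λ, #Z ≤ μ → Tr π Z) {X : Set Λ} (hX : #X ≤ 2 ^ μ) : Tr π X := by
  rcases hκμ.eq_or_lt with rfl | hlt
  · exact tr_rel hκ hπ hX
  have hμ : ℵ₀ ≤ μ := hκ.trans hκμ
  haveI : Fact (ℵ₀ ≤ μ) := ⟨hμ⟩
  have hπ' : Loc (lift hκ hlt π h) := by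
    intro Y hY
    obtain ⟨e, he⟩ := h Y hY.le
    exact ⟨e, good_lift hκ hlt h he⟩
  obtain ⟨e, he⟩ := tr_rel hμ hπ' hX
  refine glue_errors hκ hπ hκμ h e fun Z hZX hZ e' he' => ?_
  exact (good_lift hκ hlt h he').uniq hμ (he.mono hZX)

/-- Singular cardinals. -/
theorem step_sing (hκ : ℵ₀ ≤ κ) {π : Aut κ Λ} (hπ : Loc π) (hκμ : κ < μ)
    (hcof : μ.ord.cof < μ) (hlim : ∀ ν < μ, Order.succ ν < μ)
    (h : ∀ Z : Set Λ, #Z < μ → Tr π Z) {X : Set Λ} (hX : #X ≤ μ) : Tr π X := by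
  classical
  have hμ : ℵ₀ ≤ μ := hκ.trans hκμ.le
  haveI : Fact (ℵ₀ ≤ μ) := ⟨hμ⟩
  obtain ⟨v, hv⟩ := exists_rank hμ hX
  have hv' : ∀ n, #({x ∈ X | v x = n} : Set Λ) < μ := fun n =>
    sm_mono (s := {x ∈ X | v x = n}) (t := {y ∈ X | v y ≤ n}) (fun x hx => ⟨hx.1, hx.2.le⟩) (hv n)
  choose ep hep using fun n => h _ (hv' n)
  have hmax : max μ.ord.cof κ < μ := max_lt hcof hκμ
  have hinf : ℵ₀ ≤ max μ.ord.cof κ := hκ.trans (le_max_right _ _)
  have hν : Order.succ (max μ.ord.cof κ) < μ := hlim _ hmax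
  refine glue_errors hκ hπ (ν := Order.succ (max μ.ord.cof κ))
    ((le_max_right _ _).trans (Order.le_succ _)) (fun Z hZ => h Z (hZ.trans_lt hν))
    (fun x => ep (v x) x) fun Z hZX hZ e' he' => ?_
  rw [Order.lt_succ_iff]
  have h1 : ({x ∈ Z | e' x ≠ ep (v x) x} : Set Λ) ⊆
      ⋃ n : L₀ μ, {x ∈ {x ∈ Z | v x = n} | e' x ≠ ep n x} := by
    rintro x ⟨hx, hne⟩
    exact mem_iUnion.2 ⟨v x, ⟨hx, rfl⟩, hne⟩
  have h2 : ∀ n : L₀ μ, #({x ∈ {x ∈ Z | v x = n} | e' x ≠ ep n x} : Set Λ) ≤ κ := by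
    intro n
    exact ((he'.mono fun x hx => hx.1).uniq hκ
      ((hep n).mono fun x hx => ⟨hZX hx.1, hx.2⟩)).le
  calc #({x ∈ Z | e' x ≠ ep (v x) x} : Set Λ) ≤
        #(⋃ n : L₀ μ, {x ∈ {x ∈ Z | v x = n} | e' x ≠ ep n x} : Set Λ) :=
        Cardinal.mk_le_mk_of_subset h1
    _ ≤ #(L₀ μ) * κ := (Cardinal.mk_iUnion_le _).trans (mul_le_mul' le_rfl (ciSup_le' h2))
    _ ≤ max μ.ord.cof κ * max μ.ord.cof κ := by
        rw [mk_L₀]
        exact mul_le_mul' (le_max_left _ _) (le_max_right _ _)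
    _ = max μ.ord.cof κ := Cardinal.mul_eq_self hinf

/-- The main theorem. -/
theorem tr_below (hκ : ℵ₀ ≤ κ) {π : Aut κ Λ} (hπ : Loc π) (c : Cardinal.{u}) :
    (∀ d, κ < d → d ≤ c → ¬ d.IsInaccessible) → ∀ X : Set Λ, #X ≤ c → Tr π X := by
  induction c using WellFoundedLT.induction with
  | ind c ih =>
    intro hc X hX
    by_cases h1 : c ≤ κ
    · exact hπ.le hκ (hX.trans h1)
    rw [not_le] at h1
    by_cases h2 : ∃ ν < c, κ ≤ ν ∧ c ≤ 2 ^ ν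
    · obtain ⟨ν, hνc, hκν, hcν⟩ := h2
      exact step_pow hκ hπ hκν
        (fun Z hZ => ih ν hνc (fun d h3 h4 => hc d h3 (h4.trans hνc.le)) Z hZ) (hX.trans hcν)
    · push Not at h2
      have hsl : ∀ ν < c, 2 ^ ν < c := by
        intro ν hν
        rcases le_total κ ν with h3 | h3
        · exact h2 ν hν h3
        · exact (Cardinal.power_le_power_left two_ne_zero h3).trans_lt (h2 κ h1 le_rfl)
      have hsing : c.ord.cof < c := by
        by_contra hcon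
        refine hc c h1 le_rfl ⟨hκ.trans_lt h1, not_lt.1 hcon, ?_⟩
        by_contra h3
        obtain ⟨x, hx, hx'⟩ := Cardinal.not_isStrongPrelimit_iff.1 h3
        exact (hsl x hx).not_ge hx'
      exact step_sing hκ hπ h1 hsing
        (fun ν hν => (Order.succ_le_of_lt (Cardinal.cantor ν)).trans_lt (hsl ν hν))
        (fun Z hZ => ih _ hZ (fun d h3 h4 => hc d h3 (h4.trans hZ.le)) Z le_rfl) hX

section Quotient

variable {hκ : ℵ₀ ≤ κ} {φ : Quo κ hκ Λ ≃o Quo κ hκ Λ} {ρ : Aut κ Λ}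

/-- The converse of `tr_of_trivialOn`. -/
theorem trivialOn_of_tr (hρ : ∀ A, φ (cls hκ A) = cls hκ (ρ.F A)) {A : Set Λ} (h : Tr ρ A) :
    IsTrivialOn φ A := by
  classical
  obtain ⟨e, he⟩ := h
  obtain ⟨s, hs⟩ : ∃ s : Λ → Λ, ∀ y ∈ e '' A, s y ∈ A ∧ e (s y) = y := by
    refine ⟨fun y => if h : ∃ x, x ∈ A ∧ e x = y then h.choose else y, fun y hy => ?_⟩
    have h1 : ∃ x, x ∈ A ∧ e x = y := hy
    show (if h : ∃ x, x ∈ A ∧ e x = y then h.choose else y) ∈ A ∧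
      e (if h : ∃ x, x ∈ A ∧ e x = y then h.choose else y) = y
    rw [dif_pos h1]
    exact h1.choose_spec
  let W : Set Λ := {x ∈ A | s (e x) ≠ x}
  have hW : Sm κ W := by
    let W' : Set Λ := s '' (e '' W)
    have hWA : W ⊆ A := fun x hx => hx.1
    have hWA' : W' ⊆ A := by
      rintro _ ⟨_, ⟨x, hx, rfl⟩, rfl⟩
      exact (hs _ ⟨x, hx.1, rfl⟩).1
    have h1 : e '' W' = e '' W := by
      ext y
      constructor
      · rintro ⟨_, ⟨_, ⟨x, hx, rfl⟩, rfl⟩, rfl⟩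
        exact ⟨x, hx, (hs _ ⟨x, hx.1, rfl⟩).2.symm⟩
      · rintro ⟨x, hx, rfl⟩
        exact ⟨_, ⟨_, ⟨x, hx, rfl⟩, rfl⟩, (hs _ ⟨x, hx.1, rfl⟩).2⟩
    have h2 : Sm κ (ρ.F W ∩ ρ.F W' : Set Λ) := by
      refine ρ.disj hκ ?_
      have : (W ∩ W' : Set Λ) = ∅ := by
        ext y
        simp only [mem_inter_iff, mem_empty_iff_false, iff_false, not_and]
        rintro hy ⟨_, ⟨x, hx, rfl⟩, rfl⟩
        apply hy.2
        rw [(hs _ ⟨x, hx.1, rfl⟩).2]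
      rw [this]
      exact sm_empty
    have h3 : Al κ (ρ.F W) (ρ.F W') := by
      have h4 := (he W' hWA').2
      rw [h1] at h4
      exact (he W hWA).1.trans hκ h4
    rw [ρ.small_iff hκ]
    refine sm_mono ?_ (sm_union hκ h2 h3)
    intro y hy
    by_cases h4 : y ∈ ρ.F W'
    · exact Or.inl ⟨hy, h4⟩
    · exact Or.inr ⟨hy, h4⟩
  refine ⟨e '' A, ?_, fun b => ⟨s b, (hs b b.2).1⟩, fun X => ?_⟩
  · rw [hρ, cls_eq_iff]
    exact he A subset_rfl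
  · rw [hρ, cls_eq_iff]
    have hXA : (Subtype.val '' X : Set Λ) ⊆ A := by
      rintro _ ⟨x, -, rfl⟩
      exact x.2
    have h1 := he _ hXA
    constructor
    · refine h1.1.trans hκ (sm_mono ?_ (sm_image e hW))
      rintro _ ⟨⟨_, ⟨x, hx, rfl⟩, rfl⟩, hx'⟩
      refine ⟨x, ⟨x.2, fun h => hx' ?_⟩, rfl⟩
      refine ⟨⟨e x, x.1, x.2, rfl⟩, ?_, rfl⟩
      show (⟨s (e x), _⟩ : A) ∈ X
      have h2 : (⟨s (e x), (hs (e x) ⟨x.1, x.2, rfl⟩).1⟩ : A) = x := Subtype.ext h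
      rw [h2]
      exact hx
    · refine Al.trans hκ (Al.of_subset ?_) h1.2
      rintro _ ⟨b, hb, rfl⟩
      exact ⟨s b, ⟨_, hb, rfl⟩, (hs b b.2).2⟩

end Quotient

/-- The theorem for automorphisms of the quotient: triviality on the subsets. -/
theorem trivialOn_below {hκ : ℵ₀ ≤ κ} (φ : Quo κ hκ Λ ≃o Quo κ hκ Λ)
    (h : ∀ A : Set Λ, #A = κ → IsTrivialOn φ A) (A : Set Λ)
    (hA : ∀ d, κ < d → d ≤ #A → ¬ d.IsInaccessible) : IsTrivialOn φ A := by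
  obtain ⟨ρ, hρ⟩ := exists_aut φ
  exact trivialOn_of_tr hρ
    (tr_below hκ (fun A hA => tr_of_trivialOn hρ (h A hA)) #A hA A le_rfl)

/-- The theorem for automorphisms of the quotient. -/
theorem trivial_below {hκ : ℵ₀ ≤ κ} (φ : Quo κ hκ Λ ≃o Quo κ hκ Λ)
    (h : ∀ A : Set Λ, #A = κ → IsTrivialOn φ A)
    (hΛ : ∀ d, κ < d → d ≤ #Λ → ¬ d.IsInaccessible) : IsTrivial φ := by
  obtain ⟨ρ, hρ⟩ := exists_aut φ
  exact trivial_of_tr hρ
    (tr_below hκ (fun A hA => tr_of_trivialOn hρ (h A hA)) #Λ hΛ Set.univ (mk_univ).le)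

end Pool.Agent.Y869.BI
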