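import Pool.Agent.Y869.BI.Main

/-!
# The inaccessible step under weak compactness, and the least size of a bad set
-/

set_option autoImplicit false
set_option linter.unusedSectionVars false
set_option linter.unusedVariables false
set_option linter.style.haveILetI false

universe u

namespace Pool.Agent.Y869.BI

open Set Pool.Agent.W869.AV
open Cardinal hiding univ

/-- Every `θ`-list has a cofinal branch: for all subsets `A b` of `θ`, `b < θ`, there is a subset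
`B` of `θ` such that for every `a < θ` there is `b ≥ a` with `B ∩ a = A b ∩ a`. For strongly
inaccessible `θ` this is one of the well-known characterisations of weak compactness. -/
def HasBranches (θ : Cardinal.{u}) : Prop :=
  ∀ A : θ.ord.ToType → Set θ.ord.ToType, ∃ B : Set θ.ord.ToType,
    ∀ a : θ.ord.ToType, ∃ b : θ.ord.ToType, a ≤ b ∧ ∀ x < a, (x ∈ B ↔ x ∈ A b)

/-- Small subsets are bounded. -/
theorem exists_bound {θ : Cardinal.{u}} (hθ : ℵ₀ ≤ θ) (hreg : θ ≤ θ.ord.cof)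
    (S : Set θ.ord.ToType) (hS : #S < θ) : ∃ a, ∀ s ∈ S, s < a := by
  by_contra hcon
  push Not at hcon
  have h1 : IsCofinal S := hcon
  have h2 := Order.cof_le h1
  rw [Ordinal.cof_toType] at h2
  exact absurd (hreg.trans h2) (not_le.2 hS)

/-- Branches for lists of relations. -/
theorem HasBranches.rel {θ : Cardinal.{u}} (hθ : ℵ₀ ≤ θ) (hreg : θ ≤ θ.ord.cof)
    (h : HasBranches θ) (R : θ.ord.ToType → Set (θ.ord.ToType × θ.ord.ToType)) :
    ∃ B : Set (θ.ord.ToType × θ.ord.ToType), ∀ a, ∃ b, a ≤ b ∧ ∀ x < a, ∀ y < a,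
      ((x, y) ∈ B ↔ (x, y) ∈ R b) := by
  classical
  have hlt : ∀ a : θ.ord.ToType, #(Iio a) < θ := by
    intro a
    have h5 := Cardinal.mk_Iio_toType_ord_lt a
    exact h5
  have h1 : #(θ.ord.ToType × θ.ord.ToType) ≤ #(θ.ord.ToType) := by
    rw [Cardinal.mk_prod, Cardinal.lift_id, Cardinal.mk_ord_toType]
    exact (Cardinal.mul_eq_self hθ).le
  obtain ⟨c⟩ := h1
  obtain ⟨B, hB⟩ := h fun b => c '' R b
  refine ⟨{p | c p ∈ B}, fun a => ?_⟩
  obtain ⟨a', ha'⟩ := exists_bound hθ hreg (c '' (Iio a ×ˢ Iio a)) (by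
    refine Cardinal.mk_image_le.trans_lt ?_
    rw [Cardinal.mk_setProd]
    exact Cardinal.mul_lt_of_lt hθ (hlt a) (hlt a))
  obtain ⟨b, hb, hb'⟩ := hB (max a a')
  refine ⟨b, (le_max_left _ _).trans hb, fun x hx y hy => ?_⟩
  have h2 : c (x, y) < max a a' := (ha' _ ⟨(x, y), ⟨hx, hy⟩, rfl⟩).trans_le (le_max_right _ _)
  show c (x, y) ∈ B ↔ _
  rw [hb' _ h2]
  constructor
  · rintro ⟨p, hp, hpc⟩
    rw [← c.injective hpc]
    exact hp
  · intro hp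
    exact ⟨_, hp, rfl⟩

variable {κ : Cardinal.{u}} {Λ : Type u} [Fact (ℵ₀ ≤ κ)]

/-- Weakly compact cardinals. -/
theorem step_wc (hκ : ℵ₀ ≤ κ) {π : Aut κ Λ} (hπ : Loc π) {θ : Cardinal.{u}} (hκθ : κ < θ)
    (hreg : θ ≤ θ.ord.cof) (hB : HasBranches θ) (h : ∀ Z : Set Λ, #Z < θ → Tr π Z)
    {X : Set Λ} (hX : #X ≤ θ) : Tr π X := by
  classical
  have hθ : ℵ₀ ≤ θ := hκ.trans hκθ.le
  have hbd := exists_bound hθ hreg
  have hlt : ∀ a : θ.ord.ToType, #(Iio a) < θ := fun a => Cardinal.mk_Iio_toType_ord_lt a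
  have hcode : ∀ Y : Set Λ, #Y ≤ θ → ∃ r : Λ → θ.ord.ToType, InjOn r Y := by
    intro Y hY
    have h1 : #Y ≤ #(θ.ord.ToType) := by rw [Cardinal.mk_ord_toType]; exact hY
    obtain ⟨t⟩ := h1
    haveI : Nonempty θ.ord.ToType := by
      rw [← Cardinal.mk_ne_zero_iff, Cardinal.mk_ord_toType]
      exact (Cardinal.aleph0_pos.trans_le hθ).ne'
    refine ⟨fun x => if h : x ∈ Y then t ⟨x, h⟩ else Classical.arbitrary _,
      fun x hx y hy hxy => ?_⟩
    simp only [dif_pos hx, dif_pos hy] at hxy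
    exact congrArg Subtype.val (t.injective hxy)
  obtain ⟨r₁, hr₁⟩ := hcode X hX
  let Xa : θ.ord.ToType → Set Λ := fun a => {x ∈ X | r₁ x < a}
  have hXa : ∀ a, #(Xa a) < θ := by
    intro a
    refine lt_of_le_of_lt ?_ (hlt a)
    have h1 : InjOn r₁ (Xa a) := hr₁.mono fun x hx => hx.1
    rw [← Cardinal.mk_image_eq_of_injOn _ _ h1]
    refine Cardinal.mk_le_mk_of_subset ?_
    rintro _ ⟨x, hx, rfl⟩
    exact hx.2
  choose ep hep using fun a => h (Xa a) (hXa a)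
  let V : Set Λ := ⋃ a, ep a '' Xa a
  have hV : #V ≤ θ := by
    refine (Cardinal.mk_iUnion_le _).trans ?_
    refine (mul_le_mul' (Cardinal.mk_ord_toType θ).le
      (ciSup_le' fun a => Cardinal.mk_image_le.trans (hXa a).le)).trans (Cardinal.mul_eq_self hθ).le
  obtain ⟨r₂, hr₂⟩ := hcode V hV
  have hVm : ∀ a, ∀ x ∈ Xa a, ep a x ∈ V := fun a x hx => mem_iUnion.2 ⟨a, x, hx, rfl⟩
  obtain ⟨B, hBr⟩ := hB.rel hθ hreg
    (fun b => {p | ∃ x ∈ Xa b, r₁ x = p.1 ∧ r₂ (ep b x) = p.2})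
  have huniq : ∀ x ∈ X, ∀ y ∈ V, ∀ y' ∈ V, (r₁ x, r₂ y) ∈ B → (r₁ x, r₂ y') ∈ B → y = y' := by
    intro x hx y hy y' hy' h1 h2
    obtain ⟨a, ha⟩ := hbd ({r₁ x, r₂ y, r₂ y'} : Set _) (by
      refine lt_of_lt_of_le ?_ hθ
      exact (Set.toFinite _).lt_aleph0)
    have ha1 := ha (r₁ x) (by simp)
    have ha2 := ha (r₂ y) (by simp)
    have ha3 := ha (r₂ y') (by simp)
    obtain ⟨b, -, hb⟩ := hBr a
    obtain ⟨x₁, hx₁, h3, h4⟩ := (hb _ ha1 _ ha2).1 h1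
    obtain ⟨x₂, hx₂, h5, h6⟩ := (hb _ ha1 _ ha3).1 h2
    have h7 : x₁ = x₂ := hr₁ hx₁.1 hx₂.1 (h3.trans h5.symm)
    subst h7
    exact hr₂ hy hy' (h4.symm.trans h6)
  let e : Λ → Λ := fun x => if h : ∃ y ∈ V, (r₁ x, r₂ y) ∈ B then h.choose else x
  have he : ∀ x ∈ X, ∀ y ∈ V, (r₁ x, r₂ y) ∈ B → e x = y := by
    intro x hx y hy hxy
    have h1 : ∃ y ∈ V, (r₁ x, r₂ y) ∈ B := ⟨y, hy, hxy⟩
    have h2 : e x = h1.choose := dif_pos h1
    rw [h2]
    exact huniq x hx _ h1.choose_spec.1 _ hy h1.choose_spec.2 hxy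
  have hgood : ∀ a, Good π e (Xa a) := by
    intro a
    refine (hep a).congr hκ ?_
    obtain ⟨g, hg⟩ := hbd ((fun x => r₂ (ep a x)) '' Xa a)
      (Cardinal.mk_image_le.trans_lt (hXa a))
    obtain ⟨b, hb, hb'⟩ := hBr (max a g)
    have hab : Xa a ⊆ Xa b := fun x hx =>
      ⟨hx.1, hx.2.trans_le ((le_max_left _ _).trans hb)⟩
    refine sm_mono ?_ ((hep a).uniq hκ ((hep b).mono hab))
    rintro x ⟨hx, hne⟩
    refine ⟨hx, fun h1 => hne ?_⟩
    have h2 : r₂ (ep b x) < max a g := by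
      rw [← h1]
      exact (hg _ ⟨x, hx, rfl⟩).trans_le (le_max_right _ _)
    have h3 : (r₁ x, r₂ (ep b x)) ∈ B :=
      (hb' _ (hx.2.trans_le (le_max_left _ _)) _ h2).2 ⟨x, hab hx, rfl, rfl⟩
    rw [he x hx.1 _ (hVm b x (hab hx)) h3, h1]
  refine ⟨e, good_of_local hκ fun Y hY hYc => ?_⟩
  obtain ⟨a, ha⟩ := hbd (r₁ '' Y) (Cardinal.mk_image_le.trans_lt (hYc.trans_lt hκθ))
  exact (hgood a).mono fun x hx => ⟨hY hx, ha _ ⟨x, hx, rfl⟩⟩

/-- The least cardinality of a set on which the automorphism is not trivial. -/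
theorem least_nontrivial (hκ : ℵ₀ ≤ κ) {π : Aut κ Λ} (hπ : Loc π) {X : Set Λ} (hX : ¬ Tr π X)
    (hmin : ∀ Z : Set Λ, #Z < #X → Tr π Z) :
    κ < #X ∧ (#X).IsInaccessible ∧ ¬ HasBranches #X := by
  have h1 : κ < #X := by
    by_contra hcon
    exact hX (hπ.le hκ (not_lt.1 hcon))
  have h2 : ∀ ν < #X, κ ≤ ν → 2 ^ ν < #X := by
    intro ν hν hκν
    by_contra hcon
    exact hX (step_pow hκ hπ hκν (fun Z hZ => hmin Z (hZ.trans_lt hν)) (not_lt.1 hcon))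
  have hsl : ∀ ν < #X, 2 ^ ν < #X := by
    intro ν hν
    rcases le_total κ ν with h3 | h3
    · exact h2 ν hν h3
    · exact (Cardinal.power_le_power_left two_ne_zero h3).trans_lt (h2 κ h1 le_rfl)
  have h3 : #X ≤ (#X).ord.cof := by
    by_contra hcon
    exact hX (step_sing hκ hπ h1 (not_le.1 hcon)
      (fun ν hν => (Order.succ_le_of_lt (Cardinal.cantor ν)).trans_lt (hsl ν hν)) hmin le_rfl)
  refine ⟨h1, ⟨hκ.trans_lt h1, h3, ?_⟩, fun h4 => hX (step_wc hκ hπ h1 h3 h4 hmin le_rfl)⟩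
  by_contra h4
  obtain ⟨x, hx, hx'⟩ := Cardinal.not_isStrongPrelimit_iff.1 h4
  exact (hsl x hx).not_ge hx'

/-- The theorem without bad cardinals. -/
theorem tr_of_no_bad (hκ : ℵ₀ ≤ κ) {π : Aut κ Λ} (hπ : Loc π) (A : Set Λ)
    (hA : ∀ d : Cardinal.{u}, κ < d → d ≤ #A → d.IsInaccessible → HasBranches d) : Tr π A := by
  by_contra hcon
  let S : Set Cardinal.{u} := {c | ∃ Z : Set Λ, #Z = c ∧ ¬ Tr π Z}
  have hne : S.Nonempty := ⟨#A, A, rfl, hcon⟩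
  have hwf := wellFounded_lt (α := Cardinal.{u})
  obtain ⟨Z, hZ, hZ'⟩ : hwf.min S hne ∈ S := hwf.min_mem S hne
  have hmin : ∀ Z' : Set Λ, #Z' < #Z → Tr π Z' := by
    intro Z' h1
    by_contra h2
    rw [hZ] at h1
    have h3 : #Z' ∈ S := ⟨Z', rfl, h2⟩
    exact hwf.not_lt_min S h3 h1
  have hle : #Z ≤ #A := by
    rw [hZ]
    have h3 : #A ∈ S := ⟨A, rfl, hcon⟩
    exact not_lt.1 fun h1 => hwf.not_lt_min S h3 h1
  obtain ⟨h1, h2, h3⟩ := least_nontrivial hκ hπ hZ' hmin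
  exact h3 (hA _ h1 hle h2)

end Pool.Agent.Y869.BI
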